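import Pool.Agent.Helper97.Tns.Goals

/-!
TRACE: the traces of the tensor powers of an `L^q` tensor field.
-/

open scoped Manifold ContDiff ENNReal Topology
open MeasureTheory Metric
open Pool.Agent.Helper16.Abund Pool.Agent.Helper97.Tns

namespace Pool.Agent.Helper65.Tns

/-- The `k`-th tensor power of a multilinear form. -/
noncomputable def tpow {n a : ℕ} (T : Ten n a) (k : ℕ) :
    MultilinearMap ℂ (fun _ : Fin k × Fin a => (Fin n → ℂ)) ℂ :=
  MultilinearMap.mk' (fun v => ∏ κ, T fun t => v (κ, t))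
    (by
      rintro v ⟨κ₀, t₀⟩ x y
      have hne : ∀ (x : Fin n → ℂ) κ, κ ≠ κ₀ →
          (fun t => Function.update v (κ₀, t₀) x (κ, t)) = fun t => v (κ, t) := by
        intro x κ hκ
        funext t
        rw [Function.update_of_ne]
        intro h
        exact hκ (congrArg Prod.fst h)
      have heq : ∀ x : Fin n → ℂ, (fun t => Function.update v (κ₀, t₀) x (κ₀, t)) =
          Function.update (fun t => v (κ₀, t)) t₀ x := by
        intro x
        funext t
        by_cases ht : t = t₀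
        · subst ht
          rw [Function.update_self, Function.update_self]
        · rw [Function.update_of_ne ht, Function.update_of_ne]
          intro h
          exact ht (congrArg Prod.snd h)
      have key : ∀ x : Fin n → ℂ, ∏ κ, T (fun t => Function.update v (κ₀, t₀) x (κ, t)) =
          T (Function.update (fun t => v (κ₀, t)) t₀ x) *
            ∏ κ ∈ Finset.univ.erase κ₀, T fun t => v (κ, t) := by
        intro x
        rw [← Finset.mul_prod_erase Finset.univ _ (Finset.mem_univ κ₀), heq]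
        congr 1
        refine Finset.prod_congr rfl fun κ hκ => ?_
        rw [hne x κ (Finset.ne_of_mem_erase hκ)]
      rw [key, key, key, T.map_update_add, add_mul])
    (by
      rintro v ⟨κ₀, t₀⟩ c x
      have hne : ∀ (x : Fin n → ℂ) κ, κ ≠ κ₀ →
          (fun t => Function.update v (κ₀, t₀) x (κ, t)) = fun t => v (κ, t) := by
        intro x κ hκ
        funext t
        rw [Function.update_of_ne]
        intro h
        exact hκ (congrArg Prod.fst h)
      have heq : ∀ x : Fin n → ℂ, (fun t => Function.update v (κ₀, t₀) x (κ₀, t)) =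
          Function.update (fun t => v (κ₀, t)) t₀ x := by
        intro x
        funext t
        by_cases ht : t = t₀
        · subst ht
          rw [Function.update_self, Function.update_self]
        · rw [Function.update_of_ne ht, Function.update_of_ne]
          intro h
          exact ht (congrArg Prod.snd h)
      have key : ∀ x : Fin n → ℂ, ∏ κ, T (fun t => Function.update v (κ₀, t₀) x (κ, t)) =
          T (Function.update (fun t => v (κ₀, t)) t₀ x) *
            ∏ κ ∈ Finset.univ.erase κ₀, T fun t => v (κ, t) := by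
        intro x
        rw [← Finset.mul_prod_erase Finset.univ _ (Finset.mem_univ κ₀), heq]
        congr 1
        refine Finset.prod_congr rfl fun κ hκ => ?_
        rw [hne x κ (Finset.ne_of_mem_erase hκ)]
      rw [key, key, T.map_update_smul, smul_eq_mul, smul_eq_mul, mul_assoc])

lemma tpow_apply {n a : ℕ} (T : Ten n a) (k : ℕ) (v : Fin k × Fin a → Fin n → ℂ) :
    tpow T k v = ∏ κ, T fun t => v (κ, t) := rfl

/-- A summable family of multilinear maps. -/
noncomputable def msum {n : ℕ} {ι J : Type*} (T : J → MultilinearMap ℂ (fun _ : ι => (Fin n → ℂ)) ℂ)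
    (h : ∀ v, Summable fun j => T j v) : MultilinearMap ℂ (fun _ : ι => (Fin n → ℂ)) ℂ where
  toFun v := ∑' j, T j v
  map_update_add' v i x y := by
    simp only [MultilinearMap.map_update_add]
    exact (h _).tsum_add (h _)
  map_update_smul' v i c x := by
    simp only [MultilinearMap.map_update_smul, smul_eq_mul]
    exact tsum_mul_left

lemma prod_le_sum_pow {k : ℕ} (hk : 1 ≤ k) (f : Fin k → ℝ) (hf : ∀ i, 0 ≤ f i) :
    ∏ i, f i ≤ ∑ i, f i ^ k := by
  have : Nonempty (Fin k) := ⟨⟨0, hk⟩⟩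
  obtain ⟨i₀, hi₀⟩ := Finite.exists_max f
  calc ∏ i, f i ≤ ∏ _i : Fin k, f i₀ := Finset.prod_le_prod (fun i _ => hf i) fun i _ => hi₀ i
    _ = f i₀ ^ k := by rw [Finset.prod_const, Finset.card_univ, Fintype.card_fin]
    _ ≤ ∑ i, f i ^ k := Finset.single_le_sum (f := fun i => f i ^ k)
        (fun i _ => pow_nonneg (hf i) k) (Finset.mem_univ i₀)

lemma diffOn_prod {E ι : Type*} [NormedAddCommGroup E] [NormedSpace ℂ E] (S : Finset ι)
    {f : ι → E → ℂ} {U : Set E} (hf : ∀ i, DifferentiableOn ℂ (f i) U) :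
    DifferentiableOn ℂ (fun z => ∏ i ∈ S, f i z) U := by
  classical
  induction S using Finset.induction_on with
  | empty => simp
  | insert i S hi ih =>
    simp only [Finset.prod_insert hi]
    exact (hf i).mul ih

universe u

section

variable {n : ℕ} {X Y : Type u} [TopologicalSpace X]
  [ChartedSpace (Fin n → ℂ) X] [IsManifold 𝓘(ℂ, Fin n → ℂ) ω X] [TopologicalSpace Y]
  [ChartedSpace (Fin n → ℂ) Y] {p : Y → X}

lemma der_surj (x : X) {z : Fin n → ℂ} (hz : z ∈ (chartAt (Fin n → ℂ) x).target) :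
    Function.Surjective (der n (chartAt (Fin n → ℂ) x).symm z) := by
  have h := jac_chart_symm_ne_zero x hz
  have h1 : LinearMap.det (der n (chartAt (Fin n → ℂ) x).symm z :
      (Fin n → ℂ) →ₗ[ℂ] (Fin n → ℂ)) ≠ 0 := h
  have h2 : IsUnit (der n (chartAt (Fin n → ℂ) x).symm z : (Fin n → ℂ) →ₗ[ℂ] (Fin n → ℂ)) := by
    rw [LinearMap.isUnit_iff_isUnit_det]
    exact isUnit_iff_ne_zero.2 h1
  rw [Module.End.isUnit_iff] at h2
  exact h2.2

/-- The values of an `L^q` tensor field along a fibre form an `ℓ^q` family. -/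
lemma summable_push (hB : S_BOUND.{u}) (hcov : IsCoveringMap p)
    (hloc : IsLocalDiffeomorph 𝓘(ℂ, Fin n → ℂ) 𝓘(ℂ, Fin n → ℂ) ω p) {a : ℕ} {b : ℤ}
    {s : Y → Ten n a} {q : ℝ} (hs : IsTensor n Y a b s) (hq : 0 < q) (hLq : TensorLq n p b q s)
    (x : X) (v : Fin a → Fin n → ℂ) :
    Summable fun y : p ⁻¹' {x} => ‖push n p b s y.1 v‖ ^ q := by
  obtain ⟨U, σ, S⟩ := exists_sheets (n := n) hcov hloc x
  obtain ⟨r, hr, h1, h2⟩ := hB n X Y p hloc a b s q hs hq hLq x U σ S
  set χ := chartAt (Fin n → ℂ) x with hχ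
  have hz := h1 (χ x) (mem_ball_self hr)
  have hxs : x ∈ χ.source := mem_chart_source _ x
  have hsurj := der_surj x hz.1
  rw [← hχ] at hsurj
  choose w hw using fun t => hsurj (v t)
  obtain ⟨-, u, hu, hu0, hb⟩ := h2 w
  have hj : jac n χ.symm (χ x) ≠ 0 := jac_chart_symm_ne_zero x hz.1
  set J : ℝ := ‖jac n χ.symm (χ x) ^ b‖ ^ q with hJ
  have hJ0 : 0 < J := by
    apply Real.rpow_pos_of_pos
    exact norm_pos_iff.2 (zpow_ne_zero _ hj)
  have hsum : Summable fun i => J⁻¹ * u i := hu.mul_left _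
  refine Summable.of_nonneg_of_le (fun i => by positivity) (fun i => ?_) hsum
  have h3 := hb (χ x) (mem_ball_self hr) i
  rw [χ.left_inv hxs, S.base i, norm_mul, Real.mul_rpow (norm_nonneg _) (norm_nonneg _),
    ← hJ] at h3
  rw [inv_mul_eq_div, le_div_iff₀ hJ0]
  have h4 : (fun t => der n χ.symm (χ x) (w t)) = v := funext hw
  rw [h4] at h3
  exact h3

lemma summable_tpow (hB : S_BOUND.{u}) (hcov : IsCoveringMap p)
    (hloc : IsLocalDiffeomorph 𝓘(ℂ, Fin n → ℂ) 𝓘(ℂ, Fin n → ℂ) ω p) {a : ℕ} {b : ℤ}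
    {s : Y → Ten n a} {q : ℝ} (hs : IsTensor n Y a b s) (hq : 0 < q) (hLq : TensorLq n p b q s)
    (x : X) {k : ℕ} (hk1 : 1 ≤ k) (hk : q ≤ k) (v : Fin k × Fin a → Fin n → ℂ) :
    Summable fun y : p ⁻¹' {x} => tpow (push n p b s y.1) k v := by
  have hk2 : 1 ≤ (k : ℝ) / q := by rwa [one_le_div hq]
  have h1 : ∀ κ : Fin k, Summable fun y : p ⁻¹' {x} =>
      (‖push n p b s y.1 (fun t => v (κ, t))‖ ^ q) ^ ((k : ℝ) / q) := fun κ =>
    summable_rpow_of_one_le (summable_push hB hcov hloc hs hq hLq x _)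
      (fun y => Real.rpow_nonneg (norm_nonneg _) _) hk2
  refine Summable.of_norm_bounded (summable_sum fun κ (_ : κ ∈ Finset.univ) => h1 κ) ?_
  intro y
  rw [tpow_apply, norm_prod]
  refine (prod_le_sum_pow hk1 _ fun κ => norm_nonneg _).trans ?_
  refine Finset.sum_le_sum fun κ _ => ?_
  exact norm_pow_le_rpow (norm_nonneg _) hq le_rfl k

end

theorem trace_of_bound (hB : S_BOUND.{u}) : S_TRACE.{u} := by
  intro n X Y _ _ _ _ _ p hcov hloc a b s q hs hq hLq
  classical
  -- the tensors
  let t : ∀ k : ℕ, X → MultilinearMap ℂ (fun _ : Fin k × Fin a => (Fin n → ℂ)) ℂ := fun k x =>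
    if h : 1 ≤ k ∧ q ≤ k then msum (fun y : p ⁻¹' {x} => tpow (push n p b s y.1) k)
      (summable_tpow hB hcov hloc hs hq hLq x h.1 h.2) else 0
  have ht : ∀ (k : ℕ), 1 ≤ k → q ≤ k → ∀ (x : X) (v : Fin k × Fin a → Fin n → ℂ),
      t k x v = ∑' y : p ⁻¹' {x}, tpow (push n p b s y.1) k v := by
    intro k h1 h2 x v
    simp only [t]
    rw [dif_pos ⟨h1, h2⟩]
    rfl
  have ht0 : ∀ (k : ℕ), ¬ (1 ≤ k ∧ q ≤ k) → ∀ x, t k x = 0 := by
    intro k h x
    simp only [t]
    rw [dif_neg h]
  refine ⟨t, ?_, ?_⟩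
  · intro k
    by_cases hk : 1 ≤ k ∧ q ≤ k
    · obtain ⟨hk1, hk⟩ := hk
      have hk2 : 1 ≤ (k : ℝ) / q := by rwa [one_le_div hq]
      intro x₀ w
      obtain ⟨U, σ, S⟩ := exists_sheets (n := n) hcov hloc x₀
      obtain ⟨r, hr, h1, h2⟩ := hB n X Y p hloc a b s q hs hq hLq x₀ U σ S
      set χ := chartAt (Fin n → ℂ) x₀ with hχ
      have h3 := fun κ : Fin k => h2 fun τ => w (κ, τ)
      choose hd u hu hu0 hb using h3
      let G : (p ⁻¹' {x₀}) → (Fin n → ℂ) → ℂ := fun i z => ∏ κ : Fin k,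
        (push n p b s (σ i (χ.symm z)) (fun τ => der n χ.symm z (w (κ, τ))) * jac n χ.symm z ^ b)
      have hGd : ∀ i, DifferentiableOn ℂ (G i) (ball (χ x₀) r) := by
        intro i
        exact diffOn_prod Finset.univ fun κ => hd κ i
      have hGb : ∀ i, ∀ z ∈ ball (χ x₀) r, ‖G i z‖ ≤ ∑ κ : Fin k, u κ i ^ ((k : ℝ) / q) := by
        intro i z hz
        simp only [G]
        rw [norm_prod]
        refine (prod_le_sum_pow hk1 _ fun κ => norm_nonneg _).trans ?_
        refine Finset.sum_le_sum fun κ _ => ?_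
        exact norm_pow_le_rpow (norm_nonneg _) hq (hb κ z hz i) k
      have hsum : Summable fun i => ∑ κ : Fin k, u κ i ^ ((k : ℝ) / q) :=
        summable_sum fun κ _ => summable_rpow_of_one_le (hu κ) (hu0 κ) hk2
      have hD := differentiableOn_tsum isOpen_ball hGd hsum hGb
      filter_upwards [isOpen_ball.mem_nhds (mem_ball_self hr)] with z hz
      have hDz : DifferentiableAt ℂ (fun z => ∑' i, G i z) z :=
        hD.differentiableAt (isOpen_ball.mem_nhds hz)
      refine hDz.congr_of_eventuallyEq ?_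
      filter_upwards [isOpen_ball.mem_nhds hz] with z hz
      change t k (χ.symm z) (fun τ => der n χ.symm z (w τ)) * jac n χ.symm z ^ (b * (k : ℤ)) =
        ∑' i, G i z
      rw [ht k hk1 hk, S.tsum_fibre (h1 z hz).2 (fun y => tpow (push n p b s y) k _),
        ← tsum_mul_right]
      congr 1
      funext i
      simp only [G]
      rw [tpow_apply, Finset.prod_mul_distrib, Finset.prod_const, Finset.card_univ,
        Fintype.card_fin, zpow_mul, zpow_natCast]
    · intro x₀ w
      refine Filter.Eventually.of_forall fun z => ?_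
      have : (fun z => t k ((chartAt (Fin n → ℂ) x₀).symm z)
          (fun τ => der n (chartAt (Fin n → ℂ) x₀).symm z (w τ)) *
          jac n (chartAt (Fin n → ℂ) x₀).symm z ^ (b * (k : ℤ))) = fun _ => (0 : ℂ) := by
        funext z
        rw [ht0 k hk, _root_.zero_apply, zero_mul]
      rw [this]
      exact differentiableAt_const _
  · intro y v hv
    have hsum := summable_push hB hcov hloc hs hq hLq (p y) v
    obtain ⟨k, hk, hkb⟩ := exists_powerSum (a := fun y' : p ⁻¹' {p y} => push n p b s y'.1 v)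
      hq hsum ⟨y, rfl⟩ (⌈q⌉₊ + 1)
    have hqk : q ≤ k := by
      calc q ≤ (⌈q⌉₊ : ℝ) := Nat.le_ceil q
        _ ≤ ((⌈q⌉₊ + 1 : ℕ) : ℝ) := by push_cast; linarith
        _ ≤ k := by exact_mod_cast hk
    have hk1 : 1 ≤ k := by omega
    refine ⟨k, hk1, ?_⟩
    rw [ht k hk1 hqk]
    have h1 : 0 < ‖push n p b s y v‖ ^ k := pow_pos (norm_pos_iff.2 hv) k
    have h2 : ∀ y' : p ⁻¹' {p y}, tpow (push n p b s y'.1) k (fun τ => v τ.2) =
        push n p b s y'.1 v ^ k := by
      intro y'
      rw [tpow_apply]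
      simp only [Finset.prod_const, Finset.card_univ, Fintype.card_fin]
    simp only [h2]
    intro h0
    have h3 : ‖push n p b s y v‖ ^ k ≤ 2 * ‖∑' y' : p ⁻¹' {p y}, push n p b s y'.1 v ^ k‖ := hkb
    rw [h0, norm_zero, mul_zero] at h3
    linarith

end Pool.Agent.Helper65.Tns
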